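import Pool.Agent.Y167.Cartan.GXT

/-!
# MP_ad9325_ag, Q1: the case of a trivial subgroup `H`, for all groups and all tori

The starting library contains one counterexample to the assertion of Q1: the group `G = ℂ ⋉ ℂ` of
dimension two with `H = 1`, and a complex torus of dimension two. Here the question is answered for
every model `G/1` and every complex torus (by a theorem of Wang, not used here, a compact Kähler
manifold with a holomorphic `G/1`-geometry is a complex torus).

For EVERY connected complex Lie group `G` and EVERY complex torus `T` with `dim T = dim G`: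

* all hypotheses of Q1 hold: `T` is compact Kähler and carries a holomorphic `G/1`-geometry;
* `T` carries a flat holomorphic `G/1`-geometry if and only if `G` is commutative;
* `T` carries a holomorphic `(G, G)`-structure if and only if `G` is commutative.

Hence every complex torus of dimension at least two is a counterexample, for some simply connected
`G`; and all noncommutative groups (simple, nilpotent, with or without lattices) give
counterexamples on all tori of the right dimension.

Ideas. All holomorphic 1-forms on a torus are constant, so a flat geometry gives vanishing brackets.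
For a `(G, G)`-structure, the logarithmic derivatives of its charts glue to a 1-form on the torus,
which is constant; so the charts, lifted to the vector space, are local homomorphisms up to
translations, and `G` is commutative near `1`. Conversely, if the brackets vanish, the
Maurer-Cartan form is closed, its local primitive is a holomorphic chart of `G` whose inverse is a
local homomorphism; this gives the commutativity of `G` and the `(G, G)`-structures on all tori.
-/

set_option autoImplicit false

open scoped Manifold ContDiff Topology
open Pool.Agent.H194R3.Cartan Pool.Agent.W490.Flat Pool.Agent.Y167.Cartan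

theorem Pool.Agent.Results.MP_ad9325_ag.FlatIffCommutative.result :
    -- every connected complex Lie group and every complex torus of the same dimension
    (∀ (𝔤 : Type) [NormedAddCommGroup 𝔤] [NormedSpace ℂ 𝔤] [FiniteDimensional ℂ 𝔤]
      (G : Type) [TopologicalSpace G] [T2Space G] [SecondCountableTopology G] [ConnectedSpace G]
      [ChartedSpace 𝔤 G] [Group G] [LieGroup 𝓘(ℂ, 𝔤) ω G]
      (V : Type) [NormedAddCommGroup V] [NormedSpace ℂ V] [FiniteDimensional ℂ V]
      (Λ : AddSubgroup V) [DiscreteTopology Λ] [CompactSpace (Torus Λ)],
      Module.finrank ℂ V = Module.finrank ℂ 𝔤 →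
      GeometryHypotheses 𝔤 G V (Torus Λ) ∧
      (HasFlatGeometry 𝔤 G V (Torus Λ) ↔ ∀ a b : G, a * b = b * a) ∧
      (Nonempty (GXStructure G 𝔤 G V (Torus Λ)) ↔ ∀ a b : G, a * b = b * a)) ∧
    -- every complex torus of dimension at least two is a counterexample, for a simply connected
    -- group
    (∀ (V : Type) [NormedAddCommGroup V] [NormedSpace ℂ V] [FiniteDimensional ℂ V]
      (Λ : AddSubgroup V) [DiscreteTopology Λ] [CompactSpace (Torus Λ)],
      2 ≤ Module.finrank ℂ V →
        ∃ (𝔤 : Type) (_ : NormedAddCommGroup 𝔤) (_ : NormedSpace ℂ 𝔤)
          (_ : FiniteDimensional ℂ 𝔤) (G : Type) (_ : TopologicalSpace G) (_ : T2Space G)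
          (_ : SecondCountableTopology G) (_ : SimplyConnectedSpace G) (_ : ChartedSpace 𝔤 G)
          (_ : Group G) (_ : LieGroup 𝓘(ℂ, 𝔤) ω G),
          GeometryHypotheses 𝔤 G V (Torus Λ) ∧ ¬ HasFlatGeometry 𝔤 G V (Torus Λ) ∧
          ¬ Nonempty (GXStructure G 𝔤 G V (Torus Λ))) ∧
    -- the assertion of the question is false
    ¬ Pool.Agent.W490.Flat.Assertion := by
  refine ⟨?_, ?_, Pool.Agent.W490.Flat.not_assertion⟩
  · intro 𝔤 _ _ _ G _ _ _ _ _ _ _ V _ _ _ Λ _ _ hdim
    exact ⟨geometryHypotheses_torus Λ hdim, hasFlatGeometry_iff Λ hdim, gxStructure_iff Λ hdim⟩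
  · intro V _ _ _ Λ _ _ hV
    obtain ⟨m, hm⟩ : ∃ m, Module.finrank ℂ V = m + 1 := ⟨Module.finrank ℂ V - 1, by omega⟩
    have hdim := hm.trans (finrank_aff m).symm
    refine ⟨ℂ × (Fin m → ℂ), inferInstance, inferInstance, inferInstance, AffN m, inferInstance,
      inferInstance, inferInstance, inferInstance, inferInstance, inferInstance, inferInstance,
      geometryHypotheses_torus Λ hdim, fun h => ?_, fun h => ?_⟩
    · obtain ⟨x, y, hxy⟩ := AffN.not_commutative (m := m) (by omega)
      exact hxy ((hasFlatGeometry_iff Λ hdim).1 h x y)
    · obtain ⟨x, y, hxy⟩ := AffN.not_commutative (m := m) (by omega)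
      exact hxy ((gxStructure_iff Λ hdim).1 h x y)
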